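import Pool.Agent.H93.GS.Asm

/-!
# Theorem (H), MP_c59857_nt: windows inside windows, with a constant which does not depend on the
number of the exponentials
-/

set_option autoImplicit false

namespace Pool.Agent.H93.G9

open Finset Pool.Agent.H6.N4D Pool.Agent.H93 Pool.Agent.H93.GS

/-- shifting a non-negative function with an arbitrary beginning -/
lemma shift_le (X j : ℕ) (c G : ℕ → ℝ) (hc : ∀ n, 0 ≤ c n)
    (h1 : ∀ n, j < n → G n = c (n - j)) (h2 : ∀ n, n ≤ j → G n ≤ 1) :
    EB.lg X G ≤ EB.lg X c + EB.hs j := by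
  have hsplit : EB.lg X G = ∑ n ∈ (Icc 1 X).filter (fun n => n ≤ j), G n / n +
      ∑ n ∈ (Icc 1 X).filter (fun n => ¬ n ≤ j), G n / n := by
    unfold EB.lg
    rw [sum_filter_add_sum_filter_not]
  have ha : ∑ n ∈ (Icc 1 X).filter (fun n => n ≤ j), G n / n ≤ EB.hs j := by
    unfold EB.hs
    calc ∑ n ∈ (Icc 1 X).filter (fun n => n ≤ j), G n / n
        ≤ ∑ n ∈ (Icc 1 X).filter (fun n => n ≤ j), (1 : ℝ) / n := by
          apply sum_le_sum
          intro n hn
          rw [mem_filter] at hn
          exact div_le_div_of_nonneg_right (h2 n hn.2) (Nat.cast_nonneg _)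
      _ ≤ ∑ n ∈ Icc 1 j, (1 : ℝ) / n := by
          apply sum_le_sum_of_subset_of_nonneg
          · intro n hn
            rw [mem_filter, mem_Icc] at hn
            rw [mem_Icc]; omega
          · intro n _ _
            positivity
  have hb : ∑ n ∈ (Icc 1 X).filter (fun n => ¬ n ≤ j), G n / n ≤ EB.lg X c := by
    unfold EB.lg
    calc ∑ n ∈ (Icc 1 X).filter (fun n => ¬ n ≤ j), G n / n
        ≤ ∑ n ∈ (Icc 1 X).filter (fun n => ¬ n ≤ j), c (n - j) / ((n - j : ℕ) : ℝ) := by
          apply sum_le_sum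
          intro n hn
          rw [mem_filter, mem_Icc] at hn
          rw [h1 n (by omega)]
          have h3 : (0 : ℝ) < ((n - j : ℕ) : ℝ) := by
            have : 0 < n - j := by omega
            exact_mod_cast this
          apply div_le_div_of_nonneg_left (hc _) h3
          exact_mod_cast Nat.sub_le n j
      _ = ∑ m ∈ ((Icc 1 X).filter (fun n => ¬ n ≤ j)).image (fun n => n - j), c m / (m : ℝ) := by
          rw [sum_image]
          intro x hx y hy hxy
          have hx' := (mem_filter.1 hx).2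
          have hy' := (mem_filter.1 hy).2
          have hxy' : x - j = y - j := hxy
          omega
      _ ≤ ∑ m ∈ Icc 1 X, c m / (m : ℝ) := by
          apply sum_le_sum_of_subset_of_nonneg
          · intro m hm
            rw [mem_image] at hm
            obtain ⟨n, hn, rfl⟩ := hm
            rw [mem_filter, mem_Icc] at hn
            rw [mem_Icc]; omega
          · intro m _ _
            exact div_nonneg (hc m) (Nat.cast_nonneg _)
  rw [hsplit]
  linarith

/-- from windows of length `H` to windows of length `N ≤ H / 2` -/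
theorem subw1 (lam : ℕ → ℝ) (R H N X : ℕ) (e : ℝ) (hN : 1 ≤ N) (hH : 2 * N ≤ H)
    (hl : ∀ n, |lam n| ≤ 1) (hB : EB.Base lam R H e X)
    (hx : EB.hs H ≤ e * Real.log X) :
    EB.Base lam R N (3 * e) X := by
  obtain ⟨b, β, hb, hB⟩ := hB
  have hN0 : (0 : ℝ) < N := by exact_mod_cast hN
  have hH0 : (0 : ℝ) < H := by
    have : 0 < H := by omega
    exact_mod_cast this
  set F : ℕ → ℕ → ℝ := fun n m => ‖(lam m : ℂ) - ∑ r ∈ range R, b n r * ee (β n r * m)‖ ^ 2 with hF
  have hF0 : ∀ n m, 0 ≤ F n m := fun n m => by simp only [hF]; positivity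
  set c : ℕ → ℕ → ℝ := fun n i => (∑ m ∈ Ioc (n + i) (n + i + N), F n m) / N with hc
  have hc0 : ∀ n i, 0 ≤ c n i := fun n i => div_nonneg (sum_nonneg fun m _ => hF0 n m) hN0.le
  set G : ℕ → ℕ → ℝ := fun i n => if i < n then c (n - i) i else 1 with hG
  set L : ℕ := H - N + 1 with hL
  have hL0 : (0 : ℝ) < L := by
    have : 0 < L := by omega
    exact_mod_cast this
  have hLH : (H : ℝ) ≤ 2 * L := by
    have : H ≤ 2 * L := by omega
    exact_mod_cast this
  -- the best choice
  have hex : ∀ n, ∃ (b' : ℕ → ℂ) (β' : ℕ → ℝ), (∀ r, ‖b' r‖ ≤ 1) ∧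
      (∑ m ∈ Ioc n (n + N), ‖(lam m : ℂ) - ∑ r ∈ range R, b' r * ee (β' r * m)‖ ^ 2) / N ≤
      (∑ j ∈ range L, G j n) / L := by
    intro n
    obtain ⟨j, hj, hj2⟩ : ∃ j ∈ range L, G j n ≤ (∑ j ∈ range L, G j n) / L := by
      apply exists_le_of_sum_le (nonempty_range_iff.2 (by omega))
      rw [sum_const, card_range, nsmul_eq_mul, mul_div_cancel₀ _ hL0.ne']
    by_cases h : j < n
    · refine ⟨b (n - j), β (n - j), fun r => hb _ r, ?_⟩
      have h1 : G j n = (∑ m ∈ Ioc n (n + N), F (n - j) m) / N := by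
        simp only [hG, hc]
        rw [if_pos h, Nat.sub_add_cancel h.le]
      have h2 : (∑ m ∈ Ioc n (n + N), F (n - j) m) / N ≤ (∑ j ∈ range L, G j n) / L := by
        rw [← h1]; exact hj2
      exact h2
    · refine ⟨fun _ => 0, fun _ => 0, fun r => by simp, ?_⟩
      have h1 : G j n = 1 := by simp only [hG]; rw [if_neg h]
      have h2 : (∑ m ∈ Ioc n (n + N), ‖(lam m : ℂ) - ∑ r ∈ range R,
          (0 : ℂ) * ee ((0 : ℝ) * m)‖ ^ 2) / N ≤ 1 := by
        rw [div_le_one hN0]
        calc ∑ m ∈ Ioc n (n + N), ‖(lam m : ℂ) - ∑ r ∈ range R, (0 : ℂ) * ee ((0 : ℝ) * m)‖ ^ 2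
            ≤ ∑ m ∈ Ioc n (n + N), (1 : ℝ) := by
              apply sum_le_sum
              intro m _
              simp only [zero_mul, sum_const_zero, sub_zero, Complex.norm_real, Real.norm_eq_abs]
              have := hl m
              have h0 := abs_nonneg (lam m)
              nlinarith
          _ = N := by simp
      rw [h1] at hj2
      exact h2.trans hj2
  choose b' β' hb' hb2 using hex
  refine ⟨b', β', hb', ?_⟩
  have h1 : EB.lg X (fun n => (∑ m ∈ Ioc n (n + N),
      ‖(lam m : ℂ) - ∑ r ∈ range R, b' n r * ee (β' n r * m)‖ ^ 2) / N) ≤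
      EB.lg X (fun n => (1 / (L : ℝ)) * ∑ j ∈ range L, G j n) := by
    apply EB.lg_mono
    intro n _
    have := hb2 n
    rw [one_div, inv_mul_eq_div]
    exact this
  rw [EB.lg_mul, EB.lg_sum] at h1
  have h2 : ∀ j ∈ range L, EB.lg X (G j) ≤ EB.lg X (fun n => c n j) + EB.hs H := by
    intro j hj
    rw [mem_range] at hj
    have h3 := shift_le X j (fun n => c n j) (G j) (fun n => hc0 n j)
      (fun n hn => by simp only [hG]; rw [if_pos hn])
      (fun n hn => by simp only [hG]; rw [if_neg (by omega)])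
    have h6 : EB.hs j ≤ EB.hs H := EB.hs_mono (by omega)
    linarith
  have h3 : (1 / (L : ℝ)) * ∑ j ∈ range L, EB.lg X (G j) ≤
      (1 / (L : ℝ)) * ∑ j ∈ range L, EB.lg X (fun n => c n j) + EB.hs H := by
    calc (1 / (L : ℝ)) * ∑ j ∈ range L, EB.lg X (G j) ≤
        (1 / (L : ℝ)) * ∑ j ∈ range L, (EB.lg X (fun n => c n j) + EB.hs H) :=
          mul_le_mul_of_nonneg_left (sum_le_sum h2) (by positivity)
      _ = _ := by
          rw [sum_add_distrib, sum_const, card_range, nsmul_eq_mul]
          field_simp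
  have h4 : (1 / (L : ℝ)) * ∑ j ∈ range L, EB.lg X (fun n => c n j) ≤
      2 * EB.lg X (fun n => (∑ m ∈ Ioc n (n + H), F n m) / H) := by
    rw [← EB.lg_sum, ← EB.lg_mul, ← EB.lg_mul]
    apply EB.lg_mono
    intro n _
    have h5 : ∑ j ∈ range L, ∑ m ∈ Ioc (n + j) (n + j + N), F n m ≤
        N * ∑ m ∈ Ioc n (n + H), F n m := by
      have h6 : ∀ j, ∑ m ∈ Ioc (n + j) (n + j + N), F n m =
          ∑ r ∈ range N, F n (n + j + 1 + r) := by
        intro j
        apply sum_nbij' (fun m => m - (n + j + 1)) (fun r => n + j + 1 + r)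
        · intro m hm; rw [mem_Ioc] at hm; rw [mem_range]; omega
        · intro r hr; rw [mem_range] at hr; rw [mem_Ioc]; omega
        · intro m hm; rw [mem_Ioc] at hm; show n + j + 1 + (m - (n + j + 1)) = m; omega
        · intro r _; show n + j + 1 + r - (n + j + 1) = r; omega
        · intro m hm; rw [mem_Ioc] at hm
          have : n + j + 1 + (m - (n + j + 1)) = m := by omega
          rw [this]
      rw [sum_congr rfl fun j _ => h6 j, sum_comm]
      calc ∑ r ∈ range N, ∑ j ∈ range L, F n (n + j + 1 + r)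
          ≤ ∑ r ∈ range N, ∑ m ∈ Ioc n (n + H), F n m := by
            apply sum_le_sum
            intro r hr
            rw [mem_range] at hr
            have h7 : ∑ j ∈ range L, F n (n + j + 1 + r) =
                ∑ m ∈ (range L).image (fun j => n + j + 1 + r), F n m := by
              rw [sum_image]
              intro x _ y _ hxy
              have : n + x + 1 + r = n + y + 1 + r := hxy
              omega
            rw [h7]
            apply sum_le_sum_of_subset_of_nonneg
            · intro m hm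
              rw [mem_image] at hm
              obtain ⟨j, hj, rfl⟩ := hm
              rw [mem_range] at hj
              rw [mem_Ioc]; omega
            · intro m _ _; exact hF0 n m
        _ = N * ∑ m ∈ Ioc n (n + H), F n m := by simp
    have h6 : 0 ≤ ∑ m ∈ Ioc n (n + H), F n m := sum_nonneg fun m _ => hF0 n m
    simp only [hc]
    rw [← sum_div]
    calc 1 / (L : ℝ) * ((∑ j ∈ range L, ∑ m ∈ Ioc (n + j) (n + j + N), F n m) / N)
        ≤ 1 / (L : ℝ) * ((N * ∑ m ∈ Ioc n (n + H), F n m) / N) := by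
          apply mul_le_mul_of_nonneg_left _ (by positivity)
          exact div_le_div_of_nonneg_right h5 hN0.le
      _ = (∑ m ∈ Ioc n (n + H), F n m) / L := by field_simp
      _ ≤ 2 * ((∑ m ∈ Ioc n (n + H), F n m) / H) := by
          rw [mul_div_assoc', div_le_div_iff₀ hL0 hH0]
          nlinarith
  have h5 : EB.lg X (fun n => (∑ m ∈ Ioc n (n + H), F n m) / H) ≤ e * Real.log X := hB
  linarith

end Pool.Agent.H93.G9
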