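import Pool.Agent.H6.G9.Targets
import Pool.Agent.H93.G9.Sub

/-!
# Theorem (H), MP_c59857_nt: the assembly (row FIN)
-/

set_option autoImplicit false

namespace Pool.Agent.H93.G9

open Finset Pool.Agent.H6.N4D Pool.Agent.H93 Pool.Agent.H93.GS Pool.Agent.H6.G9 Filter

/-- the bottom scale is small against the top scale -/
lemma ev_scale (B σ : ℕ) : ∃ X₀ : ℕ, 3 ≤ X₀ ∧ ∀ X : ℕ, X₀ ≤ X →
    (((B * (B * max (Nat.clog 2 ⌈Real.log (Real.log X)⌉₊) σ) : ℕ)) : ℝ) ≤
      Real.log X ^ (1 / 2 : ℝ) := by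
  have h1 : Tendsto (fun X : ℕ => Real.log (X : ℝ)) atTop atTop :=
    Real.tendsto_log_atTop.comp tendsto_natCast_atTop_atTop
  have h2 := (isLittleO_log_rpow_atTop (r := 1 / 2) (by norm_num)).def
    (show (0 : ℝ) < 1 / (2 * ((B : ℝ) * B + 1)) by positivity)
  have h3 : ∀ᶠ y : ℝ in atTop, ((B : ℝ) * B) * (1 + 1 + σ) ≤ 1 / 2 * y ^ (1 / 2 : ℝ) := by
    have h4 : Tendsto (fun y : ℝ => 1 / 2 * y ^ (1 / 2 : ℝ)) atTop atTop :=
      (tendsto_rpow_atTop (by norm_num : (0 : ℝ) < 1 / 2)).const_mul_atTop (by norm_num)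
    exact h4.eventually_ge_atTop _
  obtain ⟨X₀, hX₀⟩ := eventually_atTop.1 (h1.eventually (h2.and (h3.and (eventually_ge_atTop 1))))
  refine ⟨X₀ + 3, Nat.le_add_left _ _, fun X hX => ?_⟩
  obtain ⟨h5, h6, h7⟩ := hX₀ X (by omega)
  set y : ℝ := Real.log (X : ℝ) with hy
  have hy0 : 0 ≤ Real.log y := Real.log_nonneg h7
  have hyr : 0 ≤ y ^ (1 / 2 : ℝ) := Real.rpow_nonneg (by linarith) _
  rw [Real.norm_of_nonneg hy0, Real.norm_of_nonneg hyr] at h5
  set n : ℕ := ⌈Real.log y⌉₊ with hn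
  have h8 : Nat.clog 2 n ≤ n := by
    apply Nat.clog_le_of_le_pow
    exact (Nat.lt_pow_self (by norm_num : 1 < 2)).le
  have h9 : (n : ℝ) < Real.log y + 1 := Nat.ceil_lt_add_one hy0
  have h10 : ((max (Nat.clog 2 n) σ : ℕ) : ℝ) ≤ n + σ := by
    have : max (Nat.clog 2 n) σ ≤ n + σ := by omega
    exact_mod_cast this
  push_cast
  push_cast at h10
  have hBB : (0 : ℝ) ≤ (B : ℝ) * B := by positivity
  have h11 : (B : ℝ) * B * Real.log y ≤ 1 / 2 * y ^ (1 / 2 : ℝ) := by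
    calc (B : ℝ) * B * Real.log y ≤
        (B : ℝ) * B * (1 / (2 * ((B : ℝ) * B + 1)) * y ^ (1 / 2 : ℝ)) :=
          mul_le_mul_of_nonneg_left h5 hBB
      _ = 1 / 2 * (((B : ℝ) * B) / ((B : ℝ) * B + 1)) * y ^ (1 / 2 : ℝ) := by
          field_simp
      _ ≤ 1 / 2 * 1 * y ^ (1 / 2 : ℝ) := by
          apply mul_le_mul_of_nonneg_right _ hyr
          apply mul_le_mul_of_nonneg_left _ (by norm_num)
          rw [div_le_one (by positivity)]
          linarith
      _ = 1 / 2 * y ^ (1 / 2 : ℝ) := by ring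
  calc (B : ℝ) * (B * max ((Nat.clog 2 n : ℕ) : ℝ) (σ : ℝ))
      ≤ (B : ℝ) * (B * ((n : ℝ) + σ)) := by gcongr
    _ ≤ (B : ℝ) * (B * ((Real.log y + 1) + σ)) := by gcongr
    _ = (B : ℝ) * B * Real.log y + (B : ℝ) * B * (1 + σ) := by ring
    _ ≤ y ^ (1 / 2 : ℝ) := by
        have : (B : ℝ) * B * (1 + σ) ≤ (B : ℝ) * B * (1 + 1 + σ) := by
          apply mul_le_mul_of_nonneg_left _ hBB
          linarith
        linarith

/-- FIN. -/
theorem pf_G99 (hE : T_EU) (hT : T_TOP) : T_G99 := by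
  obtain ⟨B, e₀, hB, he₀, hE⟩ := hE
  set c : ℝ := min (e₀ / 3) (1 / 24) with hc
  have hc0 : 0 < c := lt_min (by positivity) (by norm_num)
  have hc1 : 3 * c ≤ e₀ := by
    have : c ≤ e₀ / 3 := min_le_left _ _
    linarith
  have hc2 : 3 * c ≤ 1 / 8 := by
    have : c ≤ 1 / 24 := min_le_right _ _
    linarith
  set K : ℕ := 2 * (B * B) + 1 + ⌈2 / c⌉₊ with hK
  refine ⟨c, K, hc0, by omega, fun R => ?_⟩
  set th : ℝ := 1 / (16 * ((R : ℝ) + 1)) with hth
  have hth0 : 0 < th := by rw [hth]; positivity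
  have hth1 : th ≤ 1 := by
    rw [hth, div_le_one (by positivity)]
    have : (0 : ℝ) ≤ R := by positivity
    linarith
  have hthR : 2 * th * R ≤ 1 / 8 := by
    rw [hth]
    have h1 : (0 : ℝ) ≤ R := by positivity
    rw [show 2 * (1 / (16 * ((R : ℝ) + 1))) * R = R / (8 * ((R : ℝ) + 1)) by
      field_simp; ring]
    rw [div_le_div_iff₀ (by positivity) (by norm_num)]
    linarith
  obtain ⟨s₀, X₁, hE⟩ := hE th hth0 hth1 R
  obtain ⟨X₂, hT⟩ := hT th (1 / 4) hth0 hth1 (by norm_num)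
  set σ : ℕ := max s₀ 4 with hσ
  obtain ⟨X₃, hX₃, hsc⟩ := ev_scale B σ
  refine ⟨X₁ + X₂ + X₃ + ⌈Real.exp (2 / c)⌉₊ + 2 * 2 ^ (B * (B * σ)),
    fun X H lam hH hHl hHX hL b β hb => ?_⟩
  by_contra hcon
  rw [not_lt] at hcon
  have hBase : EB.Base lam R H c X := ⟨b, β, hb, hcon⟩
  have hH1 : 1 ≤ H := by
    have : 0 < 2 ^ (B * (B * σ)) := by positivity
    omega
  have hK1 : 1 ≤ K := by omega
  have hHX1 : H ≤ X := by
    calc H = H ^ 1 := (pow_one H).symm
      _ ≤ H ^ K := Nat.pow_le_pow_right hH1 hK1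
      _ ≤ X := hHX
  have hX3 : 3 ≤ X := by omega
  have hX3' : (3 : ℝ) ≤ X := by exact_mod_cast hX3
  have hlog : 0 < Real.log X := Real.log_pos (by linarith)
  have hl1 : ∀ n, |lam n| ≤ 1 := by
    intro n
    rcases hL.pm n with h | h <;> rw [h] <;> norm_num
  -- the boundary
  have hhs : EB.hs H ≤ c * Real.log X := by
    have h1 : EB.hs H ≤ 1 + Real.log H := EB.hs_le H
    have h2 : K * Real.log H ≤ Real.log X := by
      rw [← Real.log_pow]
      apply Real.log_le_log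
      · have : (0 : ℝ) < H := by exact_mod_cast hH1
        positivity
      · exact_mod_cast hHX
    have h3 : 2 / c ≤ K := by
      calc 2 / c ≤ ⌈2 / c⌉₊ := Nat.le_ceil _
        _ ≤ K := by
          have : ⌈2 / c⌉₊ ≤ K := by omega
          exact_mod_cast this
    have hlH0 : 0 ≤ Real.log H := Real.log_natCast_nonneg H
    have h4 : 2 / c * Real.log H ≤ Real.log X :=
      (mul_le_mul_of_nonneg_right h3 hlH0).trans h2
    have h5 : 2 / c ≤ Real.log X := by
      rw [Real.le_log_iff_exp_le (by linarith)]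
      calc Real.exp (2 / c) ≤ ⌈Real.exp (2 / c)⌉₊ := Nat.le_ceil _
        _ ≤ X := by
          have : ⌈Real.exp (2 / c)⌉₊ ≤ X := by omega
          exact_mod_cast this
    rw [div_mul_eq_mul_div, div_le_iff₀ hc0] at h4
    rw [div_le_iff₀ hc0] at h5
    linarith
  -- the scales
  set x : ℝ := Real.log (Real.log X) with hx
  set t : ℕ := Nat.clog 2 ⌈x⌉₊ with ht
  set M : ℕ := max t σ with hM
  have hBpos : 0 < B := by omega
  set s : ℕ := B * M with hs
  set k₀ : ℕ := B * s with hk₀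
  have hMs : M ≤ s := Nat.le_mul_of_pos_left _ hBpos
  have hs₀ : s₀ ≤ s := by
    have : s₀ ≤ M := (le_max_left s₀ 4).trans (le_max_right t σ)
    omega
  have hsB : s / B = M := by rw [hs]; exact Nat.mul_div_cancel_left M hBpos
  have hxM : x ≤ 2 ^ (s / B) := by
    rw [hsB]
    have h1 : ⌈x⌉₊ ≤ 2 ^ t := Nat.le_pow_clog (by norm_num) _
    have h2 : 2 ^ t ≤ 2 ^ M := Nat.pow_le_pow_right (by norm_num) (le_max_left _ _)
    calc x ≤ ⌈x⌉₊ := Nat.le_ceil _
      _ ≤ ((2 ^ M : ℕ) : ℝ) := by exact_mod_cast h1.trans h2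
      _ = 2 ^ M := by push_cast; rfl
  have hkH : 2 * 2 ^ k₀ ≤ H := by
    rcases le_or_gt t σ with h | h
    · have h1 : M = σ := max_eq_right h
      have h2 : k₀ = B * (B * σ) := by rw [hk₀, hs, h1]
      rw [h2]
      omega
    · have h1 : M = t := max_eq_left h.le
      have h4 : 4 ≤ σ := le_max_right _ _
      have hn1 : 1 < ⌈x⌉₊ := by
        by_contra hcon2
        have : t ≤ 0 := by
          rw [ht]
          apply Nat.clog_le_of_le_pow
          simpa using not_lt.1 hcon2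
        omega
      have h5 := Nat.pow_pred_clog_lt_self (b := 2) (by norm_num) hn1
      rw [← ht] at h5
      have hx0 : 0 ≤ x := by
        by_contra hneg
        have : ⌈x⌉₊ = 0 := Nat.ceil_eq_zero.2 (by linarith)
        omega
      have h6 : (⌈x⌉₊ : ℝ) < x + 1 := Nat.ceil_lt_add_one hx0
      have h7 : (16 : ℝ) ≤ ((2 ^ t.pred : ℕ) : ℝ) := by
        have : 2 ^ 4 ≤ 2 ^ t.pred := Nat.pow_le_pow_right (by norm_num) (by
          rw [Nat.pred_eq_sub_one]; omega)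
        exact_mod_cast this
      have h8 : ((2 ^ t.pred : ℕ) : ℝ) < x + 1 := by
        have : ((2 ^ t.pred : ℕ) : ℝ) < (⌈x⌉₊ : ℝ) := by exact_mod_cast h5
        linarith
      have h9 : (2 : ℝ) ^ t ≤ x ^ 2 := by
        have h10 : (2 : ℝ) ^ t = 2 * ((2 ^ t.pred : ℕ) : ℝ) := by
          have : t = t.pred + 1 := by rw [Nat.pred_eq_sub_one]; omega
          rw [this, pow_succ]
          push_cast
          simp [mul_comm]
        rw [h10]
        nlinarith
      have h11 : (2 : ℝ) ^ k₀ ≤ x ^ (2 * (B * B)) := by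
        have h12 : k₀ = t * (B * B) := by rw [hk₀, hs, h1]; ring
        rw [h12, pow_mul (2 : ℝ) t (B * B), pow_mul x 2 (B * B)]
        exact pow_le_pow_left₀ (by positivity) h9 _
      have hx15 : 2 ≤ x := by linarith
      have h13 : 2 * (2 : ℝ) ^ k₀ ≤ x ^ K := by
        calc 2 * (2 : ℝ) ^ k₀ ≤ x * x ^ (2 * (B * B)) := by
              apply mul_le_mul hx15 h11 (by positivity) (by linarith)
          _ = x ^ (2 * (B * B) + 1) := by rw [pow_succ]; ring
          _ ≤ x ^ K := pow_le_pow_right₀ (by linarith) (by omega)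
      have h14 : ((2 * 2 ^ k₀ : ℕ) : ℝ) ≤ H := by
        push_cast
        exact h13.trans hHl
      exact_mod_cast h14
  have hsk : s ≤ k₀ := Nat.le_mul_of_pos_left _ hBpos
  have hsH : 2 * 2 ^ s ≤ H := by
    have : 2 ^ s ≤ 2 ^ k₀ := Nat.pow_le_pow_right (by norm_num) hsk
    omega
  have hB1 : EB.Base lam R (2 ^ k₀) (3 * c) X :=
    subw1 lam R H (2 ^ k₀) X c Nat.one_le_two_pow hkH hl1 hBase hhs
  have hB2 : EB.Base lam R (2 ^ s) e₀ X :=
    base_mono lam _ _ X _ _ hX3 hc1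
      (subw1 lam R H (2 ^ s) X c Nat.one_le_two_pow hsH hl1 hBase hhs)
  have hlow := pf_LOW th (3 * c) R k₀ X lam hth0 (by positivity) hX3 hL.pm hB1
  obtain ⟨a, ha1, ha2, ha3⟩ := hT X lam (by omega) hL
  have hk₀a : k₀ ≤ a := by
    have h1 := hsc X (by omega)
    have h2 : ((k₀ : ℕ) : ℝ) ≤ (a : ℝ) := h1.trans ha1
    exact_mod_cast h2
  have hp0 : 0 ≤ Real.log X ^ (24 / 25 : ℝ) := Real.rpow_nonneg hlog.le _
  have hfin := hE s X lam hs₀ (by omega) hL hxM hB2 k₀ a le_rfl hk₀a (by linarith)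
  linarith

end Pool.Agent.H93.G9
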