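import Pool.Agent.H6.G9.Targets2
import Pool.Agent.H93.G9.Sub

/-!
# Theorem (H) for all iterated logarithms, MP_c59857_nt: the assembly (row FNT)
-/

set_option autoImplicit false

namespace Pool.Agent.H93.G9

open Finset Pool.Agent.H6.N4D Pool.Agent.H93 Pool.Agent.H93.GS Pool.Agent.H6.G9 Filter

/-- an iterated logarithm is large for large numbers -/
lemma ev_it (T : ℕ) : ∃ X₀ : ℕ, ∀ X : ℕ, X₀ ≤ X → Real.exp 1 ≤ Real.log^[T] (X : ℝ) := by
  have h : Tendsto (fun X : ℕ => Real.log^[T] (X : ℝ)) atTop atTop :=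
    (Tendsto.iterate Real.tendsto_log_atTop T).comp tendsto_natCast_atTop_atTop
  obtain ⟨X₀, hX₀⟩ := eventually_atTop.1 (h.eventually_ge_atTop (Real.exp 1))
  exact ⟨X₀, hX₀⟩

/-- the scale of the base is small against the length of the windows -/
lemma ev_len (B s₀ : ℕ) : ∃ H₀ : ℕ, ∀ H : ℕ, H₀ ≤ H →
    2 * 2 ^ (B * (⌈Real.log (Real.log H)⌉₊ + s₀)) ≤ H ∧
    ((⌈Real.log (Real.log H)⌉₊ + s₀ : ℕ) : ℝ) ^ 4 ≤ Real.log H := by
  have h1 : Tendsto (fun H : ℕ => Real.log (H : ℝ)) atTop atTop :=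
    Real.tendsto_log_atTop.comp tendsto_natCast_atTop_atTop
  have h2 := (isLittleO_log_rpow_atTop (r := 1 / 8) (by norm_num)).def
    (show (0 : ℝ) < 1 / 2 by norm_num)
  have h3 : ∀ᶠ y : ℝ in atTop, 2 * ((B : ℝ) + 1 + s₀) ≤ y ^ (1 / 8 : ℝ) :=
    (tendsto_rpow_atTop (by norm_num : (0 : ℝ) < 1 / 8)).eventually_ge_atTop _
  obtain ⟨H₀, hH₀⟩ := eventually_atTop.1 (h1.eventually (h2.and (h3.and (eventually_ge_atTop 1))))
  refine ⟨H₀ + 1, fun H hH => ?_⟩
  obtain ⟨h5, h6, h7⟩ := hH₀ H (by omega)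
  have hHpos : (0 : ℝ) < H := by
    have : 0 < H := by omega
    exact_mod_cast this
  set y : ℝ := Real.log (H : ℝ) with hy
  have hy0 : 0 ≤ Real.log y := Real.log_nonneg h7
  set z : ℝ := y ^ (1 / 8 : ℝ) with hz
  have hz0 : 0 ≤ z := Real.rpow_nonneg (by linarith) _
  have hz8 : z ^ 8 = y := by
    rw [hz, ← Real.rpow_natCast, ← Real.rpow_mul (by linarith)]
    norm_num
  have hB0 : (0 : ℝ) ≤ B := Nat.cast_nonneg _
  have hs0 : (0 : ℝ) ≤ s₀ := Nat.cast_nonneg _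
  rw [Real.norm_of_nonneg hy0, Real.norm_of_nonneg hz0] at h5
  set n : ℕ := ⌈Real.log y⌉₊ + s₀ with hn
  have hnz : (n : ℝ) ≤ z := by
    have h9 : (⌈Real.log y⌉₊ : ℝ) < Real.log y + 1 := Nat.ceil_lt_add_one hy0
    rw [hn]
    push_cast
    linarith
  have hz1 : 1 ≤ z := by linarith
  constructor
  · have h10 : ((2 * 2 ^ (B * n) : ℕ) : ℝ) ≤ H := by
      rw [← Real.log_le_log_iff (by positivity) hHpos]
      push_cast
      rw [Real.log_mul (by norm_num) (by positivity), Real.log_pow]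
      have hl2 : Real.log 2 ≤ 1 := by
        have := Real.log_two_lt_d9
        linarith
      have hl0 : 0 ≤ Real.log 2 := Real.log_nonneg (by norm_num)
      push_cast
      calc Real.log 2 + (B : ℝ) * n * Real.log 2 ≤ 1 + (B : ℝ) * n * 1 := by gcongr
        _ ≤ 1 + (B : ℝ) * z * 1 := by gcongr
        _ ≤ ((B : ℝ) + 1) * z := by nlinarith
        _ ≤ z * z := by
          apply mul_le_mul_of_nonneg_right _ hz0
          linarith
        _ = z ^ 2 := by ring
        _ ≤ z ^ 8 := pow_le_pow_right₀ hz1 (by norm_num)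
        _ = y := hz8
    exact_mod_cast h10
  · calc (n : ℝ) ^ 4 ≤ z ^ 4 := pow_le_pow_left₀ (Nat.cast_nonneg _) hnz 4
      _ ≤ z ^ 8 := pow_le_pow_right₀ hz1 (by norm_num)
      _ = y := hz8

/-- FNT. -/
theorem pf_G9T (hQ : T_QT) : T_G9T := by
  intro T
  obtain ⟨B, hB, hQ⟩ := hQ
  obtain ⟨e, he0, he1, hQ⟩ := hQ (T + 2) (by omega)
  set c : ℝ := e / 6 with hc
  have hc0 : 0 < c := by positivity
  set K : ℕ := 1 + ⌈2 / c⌉₊ with hK
  refine ⟨c, K, hc0, by omega, fun R => ?_⟩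
  set th : ℝ := e / (8 * ((R : ℝ) + 1)) with hth
  have hR0 : (0 : ℝ) ≤ R := Nat.cast_nonneg _
  have hth0 : 0 < th := by rw [hth]; positivity
  have hth1 : th ≤ 1 := by
    rw [hth, div_le_one (by positivity)]
    linarith
  have hthR : 2 * th * R ≤ e / 4 := by
    rw [hth, show 2 * (e / (8 * ((R : ℝ) + 1))) * R = (e / 4) * (R / ((R : ℝ) + 1)) by
      field_simp; ring]
    have h2 : (R : ℝ) / ((R : ℝ) + 1) ≤ 1 := by
      rw [div_le_one (by positivity)]
      linarith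
    calc e / 4 * ((R : ℝ) / ((R : ℝ) + 1)) ≤ e / 4 * 1 :=
          mul_le_mul_of_nonneg_left h2 (by positivity)
      _ = e / 4 := mul_one _
  obtain ⟨s₀, hQ⟩ := hQ th hth0 hth1 R
  obtain ⟨X₁, hX₁⟩ := ev_it T
  obtain ⟨H₁, hH₁⟩ := ev_len B s₀
  refine ⟨H₁ + X₁ + ⌈Real.exp (2 / c)⌉₊ + 3, fun X H lam hH hHl hHX hL b β hb => ?_⟩
  by_contra hcon
  rw [not_lt] at hcon
  have hBase : EB.Base lam R H c X := ⟨b, β, hb, hcon⟩
  have hH1 : 1 ≤ H := by omega
  have hHX1 : H ≤ X := by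
    calc H = H ^ 1 := (pow_one H).symm
      _ ≤ H ^ K := Nat.pow_le_pow_right hH1 (by omega)
      _ ≤ X := hHX
  have hX3 : 3 ≤ X := by omega
  have hX3' : (3 : ℝ) ≤ X := by exact_mod_cast hX3
  have hH0' : (0 : ℝ) < H := by exact_mod_cast hH1
  have hl1 : ∀ n, |lam n| ≤ 1 := by
    intro n
    rcases hL.pm n with h | h <;> rw [h] <;> norm_num
  -- the boundary
  have hhs : EB.hs H ≤ c * Real.log X := by
    have h1 : EB.hs H ≤ 1 + Real.log H := EB.hs_le H
    have h2 : K * Real.log H ≤ Real.log X := by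
      rw [← Real.log_pow]
      apply Real.log_le_log (by positivity)
      exact_mod_cast hHX
    have h3 : 2 / c ≤ K := by
      calc 2 / c ≤ ⌈2 / c⌉₊ := Nat.le_ceil _
        _ ≤ K := by
          have : ⌈2 / c⌉₊ ≤ K := by omega
          exact_mod_cast this
    have hlH0 : 0 ≤ Real.log H := Real.log_natCast_nonneg H
    have h4 : 2 / c * Real.log H ≤ Real.log X :=
      (mul_le_mul_of_nonneg_right h3 hlH0).trans h2
    have h5 : 2 / c ≤ Real.log X := by
      rw [Real.le_log_iff_exp_le (by linarith)]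
      calc Real.exp (2 / c) ≤ ⌈Real.exp (2 / c)⌉₊ := Nat.le_ceil _
        _ ≤ X := by
          have : ⌈Real.exp (2 / c)⌉₊ ≤ X := by omega
          exact_mod_cast this
    rw [div_mul_eq_mul_div, div_le_iff₀ hc0] at h4
    rw [div_le_iff₀ hc0] at h5
    linarith
  -- the scale of the base
  obtain ⟨hlen, hpow⟩ := hH₁ H (by omega)
  have hy := hX₁ X (by omega)
  set n : ℕ := ⌈Real.log (Real.log H)⌉₊ + s₀ with hn
  have hit : Real.log^[T + 2] (X : ℝ) ≤ Real.log (Real.log H) := by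
    rw [Function.iterate_succ_apply', Function.iterate_succ_apply']
    have he : (0 : ℝ) < Real.exp 1 := Real.exp_pos 1
    have h1 : 1 ≤ Real.log (Real.log^[T] (X : ℝ)) := by
      rw [Real.le_log_iff_exp_le (by linarith)]
      exact hy
    exact Real.log_le_log (by linarith) (Real.log_le_log (by linarith) hHl)
  have hns : Real.log^[T + 2] (X : ℝ) ≤ n := by
    calc Real.log^[T + 2] (X : ℝ) ≤ Real.log (Real.log H) := hit
      _ ≤ ⌈Real.log (Real.log H)⌉₊ := Nat.le_ceil _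
      _ ≤ n := by
        have : ⌈Real.log (Real.log H)⌉₊ ≤ n := Nat.le_add_right _ _
        exact_mod_cast this
  have hn4 : (n : ℝ) ^ 4 ≤ Real.log X :=
    hpow.trans (Real.log_le_log hH0' (by exact_mod_cast hHX1))
  have hnB : n ≤ B * n := Nat.le_mul_of_pos_left _ (by omega)
  have hlen2 : 2 * 2 ^ n ≤ H := by
    have : 2 ^ n ≤ 2 ^ (B * n) := Nat.pow_le_pow_right (by norm_num) hnB
    omega
  have hB1 : EB.Base lam R (2 ^ (B * n)) (3 * c) X :=
    subw1 lam R H (2 ^ (B * n)) X c Nat.one_le_two_pow hlen hl1 hBase hhs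
  have hB2 : EB.Base lam R (2 ^ n) e X :=
    base_mono lam _ _ X _ _ hX3 (by rw [hc]; linarith)
      (subw1 lam R H (2 ^ n) X c Nat.one_le_two_pow hlen2 hl1 hBase hhs)
  have hlow := pf_LOW th (3 * c) R (B * n) X lam hth0 (by positivity) hX3 hL.pm hB1
  have hfin := hQ n X lam (Nat.le_add_left _ _) hns hn4 hL hB2
  rw [hc] at hlow
  linarith

end Pool.Agent.H93.G9
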