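import Pool.Agent.H6.G9.Targets
import Pool.Agent.H81.GS.EN2

/-!
# Theorem (H), MP_c59857_nt: a good range near the top (row PGN)
-/

set_option autoImplicit false

open Finset Pool.Agent.H93 Pool.Agent.H6.N4D Pool.Agent.H93.GS Pool.Agent.H72.EN Filter
  Pool.Agent.H81.GS
open Pool.Agent.H72.GS2 (wit bF_le)

namespace Pool.Agent.H93.G9

/-! ## the trivial base -/

lemma base0 {lam : ℕ → ℝ} (h : Lio lam) {S X : ℕ} (hX : 3 ≤ X) (hS : 1 ≤ S) :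
    EB.Base lam 0 S 2 X := by
  refine ⟨fun _ _ => 0, fun _ _ => 0, fun _ _ => by simp, ?_⟩
  have hS0 : (0 : ℝ) < S := by exact_mod_cast hS
  have h1 : ∀ n, (∑ m ∈ Ioc n (n + S), ‖(lam m : ℂ) - ∑ r ∈ range 0,
      (0 : ℂ) * ee ((0 : ℝ) * m)‖ ^ 2) / (S : ℝ) = 1 := by
    intro n
    have h2 : ∀ m ∈ Ioc n (n + S), ‖(lam m : ℂ) - ∑ r ∈ range 0,
        (0 : ℂ) * ee ((0 : ℝ) * m)‖ ^ 2 = 1 := by
      intro m _
      rw [range_zero, sum_empty, sub_zero, Complex.norm_real, Real.norm_eq_abs]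
      rcases h.pm m with h | h <;> rw [h] <;> norm_num
    rw [sum_congr rfl h2]
    simp only [sum_const, Nat.card_Ioc, Nat.add_sub_cancel_left, nsmul_eq_mul, mul_one]
    exact div_self hS0.ne'
  simp only [h1]
  have h3 : EB.lg X (fun _ => (1 : ℝ)) ≤ 1 + Real.log X := EB.lg_one_le X
  have h4 := log_ge hX
  linarith

/-! ## sums over sparse sequences of levels, for every function -/

lemma chainU (hKCH : T_KCH) (hLIM : T_LIM) {B₀ : ℕ} {C₀ : ℝ} (hB₀ : 1 ≤ B₀) (hC₀ : 0 < C₀)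
    (hbes : BesC B₀ C₀) (B : ℕ) (hBB : B₀ ≤ B) (hB2 : 2 ≤ B) (th' δ c₁ : ℝ) (hδ : 0 < δ)
    (hc₁ : 0 < c₁) : ∃ (C' : ℝ) (s₀ X₀ : ℕ), 0 < C' ∧ 3 ≤ X₀ ∧
      ∀ (s X : ℕ) (lam : ℕ → ℝ), s₀ ≤ s → X₀ ≤ X → Lio lam →
        Real.log (Real.log X) ≤ 2 ^ (s / (4000 * B)) →
        ∀ k₀ k : ℕ, 4000 * B * s ≤ k₀ → k₀ ≤ k → (k : ℝ) ≤ 2 * Real.log X ^ (24 / 25 : ℝ) →
        ∀ (K : ℕ) (c : ℕ → ℕ), Chn B k₀ (2 * k) K c →
          ∑ i ∈ range K, (bA lam X (c i) + bF lam X (c i) th' δ c₁) ≤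
            C' * Real.log X := by
  obtain ⟨G₁, hG₁d⟩ : ∃ G₁ : ℝ, G₁ = 1 + 1 / c₁ ^ 2 := ⟨_, rfl⟩
  have hG₁ : 0 < G₁ := by rw [hG₁d]; positivity
  obtain ⟨s₁, hs₁⟩ := hbes 0 δ hδ
  obtain ⟨X₀, hX₀, hlim⟩ := hLIM 1 one_pos
  refine ⟨G₁ * (10 * C₀ + 1) + 4, s₁ + 5 * B + 1, X₀, by positivity, hX₀, ?_⟩
  intro s X lam hs hX hlam hll k₀ k hk₀ hk hkX K c hc
  have hX3 : 3 ≤ X := hX₀.trans hX
  have hbase : EB.Base lam 0 (2 ^ s) 2 X := base0 hlam hX3 Nat.one_le_two_pow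
  have hY1 := log_ge hX3
  have hΦ := hlim X k hX hkX
  obtain ⟨Y, hYd⟩ : ∃ Y : ℝ, Y = Real.log X := ⟨_, rfl⟩
  rw [← hYd] at hΦ hY1 hll hkX ⊢
  have hY : 0 < Y := by linarith
  have hl1 := Lio_abs hlam
  have hBs : s ≤ B * s := Nat.le_mul_of_pos_left _ (by omega)
  have hk₀s : 4000 * s ≤ k₀ := by
    have h1 : 4000 * B * s = 4000 * (B * s) := by ring
    rw [h1] at hk₀
    omega
  have hs1 : 1 ≤ s := by omega
  have hk1 : 1 ≤ k := by omega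
  obtain ⟨Φ, hΦd⟩ : ∃ Φ : ℝ, Φ = ((k : ℝ) + 1) * (1 + Real.log (k + 1)) := ⟨_, rfl⟩
  rw [← hΦd] at hΦ
  have hk0r : (0 : ℝ) ≤ k := Nat.cast_nonneg _
  have hlog0 : 0 ≤ Real.log ((k : ℝ) + 1) := Real.log_nonneg (by linarith)
  have hΦl : 1 + Real.log ((k : ℝ) + 1) ≤ Φ := by
    rw [hΦd]
    nlinarith
  have hΦ0 : 0 < Φ := by linarith
  rcases Nat.eq_zero_or_pos K with h0 | h0
  · subst h0
    rw [sum_range_zero]
    positivity
  · have hK := chn_le hKCH hB2 (by omega) hk1 hc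
    have hK4 : (K : ℝ) ≤ 4 * Φ := by linarith
    have hK2 := K_le hKCH hB₀ hBB hB2 (by omega) hk1 hY1 (by omega) hkX hll hc
    choose αA gA hgA hA using fun i => (Pool.Agent.H38.EL.pf_BAB lam X (c i) hl1).2.2.2.2.1
    obtain ⟨hbA, hbB⟩ := hs₁ s X K (2 * k) lam 2 c (by omega) hX3 hl1 hbase hK2 (by
        have h2 := (hc.1 0 h0).1
        have h3 : B₀ * s ≤ B * s := Nat.mul_le_mul_right _ hBB
        have h4 : 4000 * B * s = 4000 * (B * s) := by ring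
        rw [h4] at hk₀
        omega) (fun i hi => by
        have h2 := hc.2 i hi
        have h3 : B₀ * c i ≤ B * c i := Nat.mul_le_mul_right _ hBB
        omega) (fun i hi => (hc.1 i hi).2)
    have h1 := hbA αA gA (fun i _ n q hq => hgA i n q hq)
    obtain ⟨αB, hαB, h2⟩ := hbB (fun i => wit lam (c i) th' δ c₁)
    rw [← hYd] at h1 h2
    obtain ⟨T, hTd⟩ : ∃ T : ℝ, T = (C₀ * 2 + (1 / 2) ^ (s / B₀)) * Y +
      C₀ * K * (((2 * k : ℕ) : ℝ) + 1) := ⟨_, rfl⟩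
    rw [← hTd] at h1 h2
    have h3 : ∑ i ∈ range K, (bA lam X (c i) + bF lam X (c i) th' δ c₁) ≤
        ∑ i ∈ range K, (bv lam X (c i) (fun n _ => αA i n) (gA i) + 1) +
        ∑ i ∈ range K, 1 / c₁ ^ 2 * bv lam X (c i) (αB i) (fun _ _ _ => 1) := by
      rw [← sum_add_distrib]
      refine sum_le_sum fun i hi => ?_
      rw [mem_range] at hi
      exact add_le_add (hA i) (bF_le_bv hc₁ (αB i) (hαB i hi))
    have h3a : ∑ i ∈ range K, (bv lam X (c i) (fun n _ => αA i n) (gA i) + 1) =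
        ∑ i ∈ range K, bv lam X (c i) (fun n _ => αA i n) (gA i) + K := by
      rw [sum_add_distrib, sum_const, card_range, nsmul_eq_mul, mul_one]
    rw [h3a, ← mul_sum] at h3
    have h4 : ∑ i ∈ range K, bv lam X (c i) (fun n _ => αA i n) (gA i) ≤ T := h1
    have h4' : ∑ i ∈ range K, bv lam X (c i) (αB i) (fun _ _ _ => 1) ≤ T := h2
    have h5 := mul_le_mul_of_nonneg_left h4' (by positivity : 0 ≤ 1 / c₁ ^ 2)
    have h6 : G₁ * T = T + 1 / c₁ ^ 2 * T := by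
      rw [hG₁d]
      ring
    have h7 : ∑ i ∈ range K, (bA lam X (c i) + bF lam X (c i) th' δ c₁) ≤ G₁ * T + K := by
      rw [h6]
      linarith
    refine h7.trans ?_
    have h8 : (K : ℝ) * ((2 * k : ℕ) + 1) ≤ 8 * Φ := by
      rw [hΦd]
      push_cast
      have h3 : (K : ℝ) * (2 * k + 1) ≤ 4 * (1 + Real.log (k + 1)) * (2 * (k + 1)) :=
        mul_le_mul hK (by linarith) (by positivity) (by positivity)
      linarith
    have t2 : ((1 : ℝ) / 2) ^ (s / B₀) ≤ 1 := pow_le_one₀ (by norm_num) (by norm_num)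
    have t4 : C₀ * K * (((2 * k : ℕ) : ℝ) + 1) ≤ 8 * C₀ * Φ := by
      have h1 := mul_le_mul_of_nonneg_left h8 hC₀.le
      linarith
    have t3 : 8 * C₀ * Φ ≤ 8 * C₀ * Y := by
      apply mul_le_mul_of_nonneg_left _ (by positivity)
      linarith
    have t5 := mul_le_mul_of_nonneg_right t2 hY.le
    have t6 : T ≤ (10 * C₀ + 1) * Y := by
      rw [hTd]
      linarith
    have t7 := mul_le_mul_of_nonneg_left t6 hG₁.le
    linarith

/-! ## one level -/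

/-- the changes of the energy with given constants -/
def ChC (th c₁ δ CC : ℝ) (p₀ m₁ : ℕ) : Prop :=
  ∀ (X m : ℕ) (lam : ℕ → ℝ), 3 ≤ X → m₁ ≤ m → Lio lam →
    ch th lam X m ≤ CC * (Real.sqrt (bA lam X m * Real.log X) + bA lam X m +
      bF lam X m (th / 2) δ c₁ + gm th lam X p₀ m +
      gmq th lam X p₀ m + (1 / 2) ^ (m / 2000) * Real.log X + 3 * (m + 1))

lemma hm_level {th c₁ δ CC C₁ C₂ : ℝ} {p₀ m₁ mW : ℕ} (hCC : 0 < CC)
    (hC₁ : 0 < C₁) (hC₂ : 0 < C₂) (hchg : ChC th c₁ δ CC p₀ m₁) (hd : DilC th C₁)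
    (hm : MnxC th C₂) (hW : ∀ m, mW ≤ m → ∑ q ∈ EB.QQ m, 1 / (q : ℝ) ≤ 3) (ε : ℝ) (hε : 0 < ε) :
    ∃ (ε₃ : ℝ) (m₂ : ℕ), 0 < ε₃ ∧ ∀ (X m : ℕ) (lam : ℕ → ℝ), 3 ≤ X → Lio lam → m₂ ≤ m →
      te th lam X (m - p₀) - te th lam X m ≤ ε₃ →
      te th lam X (m - m / 50) - te th lam X m ≤ ε₃ →
      bA lam X m + bF lam X m (th / 2) δ c₁ ≤ ε₃ * Real.log X →
      (m : ℝ) + 1 ≤ ε₃ * Real.log X → Hm th ε lam X m := by
  obtain ⟨ε₃, hε₃d⟩ : ∃ x : ℝ, x = ε / (8 * CC * 3) := ⟨_, rfl⟩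
  have hε₃ : 0 < ε₃ := by rw [hε₃d]; positivity
  obtain ⟨ζ, hζd⟩ : ∃ x : ℝ, x = ε / (16 * CC * (1 + 6 * (C₁ + C₂))) := ⟨_, rfl⟩
  have hζ : 0 < ζ := by rw [hζd]; positivity
  obtain ⟨ε₄, hε₄, hε₄1, hε₄2, hε₄3, hε₄4, hε₄5⟩ : ∃ x : ℝ, 0 < x ∧ x ≤ ε ∧
      x ≤ (ε / (8 * CC)) ^ 2 ∧ x ≤ ε / (8 * CC) ∧ x ≤ ε₃ ∧ x ≤ ζ :=
    ⟨min ε (min ((ε / (8 * CC)) ^ 2) (min (ε / (8 * CC)) (min ε₃ ζ))), by positivity,
      min_le_left _ _,
      (min_le_right _ _).trans (min_le_left _ _),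
      ((min_le_right _ _).trans (min_le_right _ _)).trans (min_le_left _ _),
      (((min_le_right _ _).trans (min_le_right _ _)).trans (min_le_right _ _)).trans
        (min_le_left _ _),
      (((min_le_right _ _).trans (min_le_right _ _)).trans (min_le_right _ _)).trans
        (min_le_right _ _)⟩
  obtain ⟨x, hx1, hx2⟩ : ∃ x : ℕ, 1 ≤ x ∧ 1 / ζ ≤ x :=
    ⟨⌈1 / ζ⌉₊ + 1, by omega, by
      have := Nat.le_ceil (1 / ζ)
      push_cast
      linarith⟩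
  refine ⟨ε₄, 2000 * x + 1000 * (p₀ + 1) + m₁ + mW, hε₄, ?_⟩
  intro X m lam hX3 hlam hm2 n1 n2 n3 hlm
  have hY1 := log_ge hX3
  have hY0 : 0 < Real.log X := by linarith
  have hl := Lio_abs hlam
  have hmx : x ≤ m / 2000 := by omega
  have hp : 1000 * (p₀ + 1) ≤ m := by omega
  have hbA := (Pool.Agent.H38.EL.pf_BAB lam X m hl).1
  have hbF := bF_nonneg lam X m (th / 2) δ c₁
  obtain ⟨Y, hYd⟩ : ∃ Y : ℝ, Y = Real.log X := ⟨_, rfl⟩
  have hm0r : (0 : ℝ) ≤ m := Nat.cast_nonneg _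
  have hlm2 : (m : ℝ) + 1 ≤ ζ * Y := by
    rw [hYd]
    exact hlm.trans (mul_le_mul_of_nonneg_right hε₄5 hY0.le)
  have hpow : ((1 : ℝ) / 2) ^ (m / 2000) ≤ ζ := by
    have hx0 : (0 : ℝ) < x := by exact_mod_cast hx1
    have h4 : ((1 : ℝ) / 2) ^ (m / 2000) ≤ 1 / x := by
      apply half_pow_le hx0
      exact_mod_cast hmx
    refine h4.trans ?_
    rw [div_le_iff₀ hx0]
    rw [div_le_iff₀ hζ] at hx2
    linarith
  have hpow2 : ((1 : ℝ) / 2) ^ (m / 400) ≤ ζ := by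
    refine le_trans (pow_le_pow_of_le_one (by norm_num) (by norm_num) ?_) hpow
    exact Nat.div_le_div_left (by norm_num) (by norm_num)
  have hg1 : gm th lam X p₀ m ≤ ε₃ * Y := by
    unfold gm
    rw [← te_mul hX3, ← te_mul hX3, ← sub_mul, ← hYd]
    refine mul_le_mul_of_nonneg_right (by linarith) ?_
    rw [hYd]
    exact hY0.le
  have hg2 := gmq_le (p₀ := p₀) (D := ε₃ * Y) hC₁ hC₂ hd hm hX3 hlam hp (hW m (by omega))
    (by rw [hYd]; positivity) (by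
      rw [← te_mul hX3, ← te_mul hX3, ← sub_mul, ← hYd]
      refine mul_le_mul_of_nonneg_right (by linarith) ?_
      rw [hYd]
      exact hY0.le)
  have hc := hchg X m lam hX3 (by omega) hlam
  unfold Hm
  rw [← hYd] at n3 hg2 hc hY0 ⊢
  obtain ⟨a, had⟩ : ∃ a : ℝ, a = bA lam X m := ⟨_, rfl⟩
  obtain ⟨b, hbd⟩ : ∃ a : ℝ, a = bF lam X m (th / 2) δ c₁ := ⟨_, rfl⟩
  rw [← had] at n3 hc hbA ⊢
  rw [← hbd] at n3 hc hbF
  have hε₄Y : ε₄ * Y ≤ ε * Y := mul_le_mul_of_nonneg_right hε₄1 hY0.le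
  refine ⟨by linarith, hc.trans ?_⟩
  have r1 : Real.sqrt (a * Y) ≤ ε / (8 * CC) * Y := by
    rw [Real.sqrt_le_left (by positivity)]
    have h5 : a * Y ≤ ε₄ * Y * Y := mul_le_mul_of_nonneg_right (by linarith) hY0.le
    have h6 : ε₄ * Y * Y ≤ (ε / (8 * CC)) ^ 2 * Y * Y := by gcongr
    calc a * Y ≤ (ε / (8 * CC)) ^ 2 * Y * Y := h5.trans h6
      _ = (ε / (8 * CC) * Y) ^ 2 := by ring
  have r2 : a + b ≤ ε / (8 * CC) * Y :=
    n3.trans (mul_le_mul_of_nonneg_right hε₄3 hY0.le)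
  have r3 : (1 / 2) ^ (m / 400) * Y + ((m : ℝ) + 1) ≤ 2 * (ζ * Y) := by
    have := mul_le_mul_of_nonneg_right hpow2 hY0.le
    linarith
  have r4 : gmq th lam X p₀ m ≤ 3 * (ε₃ * Y) + 3 * (2 * (C₁ + C₂) * (2 * (ζ * Y))) := by
    refine hg2.trans ?_
    have h7 : 2 * (C₁ + C₂) * ((1 / 2) ^ (m / 400) * Y + ((m : ℝ) + 1)) ≤
        2 * (C₁ + C₂) * (2 * (ζ * Y)) := mul_le_mul_of_nonneg_left r3 (by positivity)
    linarith
  have r5 : (1 / 2) ^ (m / 2000) * Y ≤ ζ * Y := mul_le_mul_of_nonneg_right hpow hY0.le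
  have r6 : Real.sqrt (a * Y) + a + b + gm th lam X p₀ m + gmq th lam X p₀ m +
      (1 / 2) ^ (m / 2000) * Y + 3 * (m + 1) ≤
      2 * (ε / (8 * CC) * Y) + 4 * (ε₃ * Y) + (4 + 24 * (C₁ + C₂)) * (ζ * Y) := by
    have hpos : 0 ≤ 12 * (C₁ + C₂) * (ζ * Y) := by positivity
    linarith
  have r7 := mul_le_mul_of_nonneg_left r6 hCC.le
  refine r7.trans ?_
  have e1 : CC * (2 * (ε / (8 * CC) * Y) + 4 * (ε₃ * Y) + (4 + 24 * (C₁ + C₂)) * (ζ * Y)) =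
      ε * Y * (1 / 4 + 1 / 6 + 1 / 4) := by
    rw [hε₃d, hζd]
    field_simp
    ring
  rw [e1]
  have : 0 < ε * Y := by positivity
  linarith

/-! ## sizes -/

lemma ev_sz (p q C F : ℝ) (hC : 0 < C) : ∀ᶠ Y : ℝ in atTop,
    p * (Real.log Y + q) ≤ C * Y ^ (19 / 20 : ℝ) ∧ q ≤ C * Y ^ (19 / 20 : ℝ) ∧
    F * (C * Y ^ (19 / 20 : ℝ) + 1) ≤ Y ^ (24 / 25 : ℝ) := by
  have h1 := (isLittleO_log_rpow_atTop (r := 19 / 20) (by norm_num)).def
    (show (0 : ℝ) < C / (2 * (|p| + 1)) by positivity)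
  have h2 : Tendsto (fun y : ℝ => C / 2 * y ^ (19 / 20 : ℝ)) atTop atTop :=
    (tendsto_rpow_atTop (by norm_num : (0 : ℝ) < 19 / 20)).const_mul_atTop (by positivity)
  have h3 : Tendsto (fun y : ℝ => y ^ (1 / 100 : ℝ)) atTop atTop :=
    tendsto_rpow_atTop (by norm_num : (0 : ℝ) < 1 / 100)
  filter_upwards [h1, h2.eventually_ge_atTop (|p| * |q|), h2.eventually_ge_atTop |q|,
    h3.eventually_ge_atTop (|F| * (C + 1)), eventually_ge_atTop 1] with y h4 h5 h6 h7 h8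
  have hy0 : 0 ≤ Real.log y := Real.log_nonneg h8
  have hyr : 0 ≤ y ^ (19 / 20 : ℝ) := Real.rpow_nonneg (by linarith) _
  have hyr1 : 1 ≤ y ^ (19 / 20 : ℝ) := Real.one_le_rpow h8 (by norm_num)
  rw [Real.norm_of_nonneg hy0, Real.norm_of_nonneg hyr] at h4
  refine ⟨?_, ?_, ?_⟩
  · have h9 : |p| * Real.log y ≤ C / 2 * y ^ (19 / 20 : ℝ) := by
      calc |p| * Real.log y ≤ |p| * (C / (2 * (|p| + 1)) * y ^ (19 / 20 : ℝ)) :=
            mul_le_mul_of_nonneg_left h4 (abs_nonneg _)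
        _ = C / 2 * (|p| / (|p| + 1)) * y ^ (19 / 20 : ℝ) := by
            field_simp
        _ ≤ C / 2 * 1 * y ^ (19 / 20 : ℝ) := by
            apply mul_le_mul_of_nonneg_right _ hyr
            apply mul_le_mul_of_nonneg_left _ (by positivity)
            rw [div_le_one (by positivity)]
            linarith
        _ = C / 2 * y ^ (19 / 20 : ℝ) := by ring
    have h10 : p * Real.log y ≤ |p| * Real.log y :=
      mul_le_mul_of_nonneg_right (le_abs_self p) hy0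
    have h11 : p * q ≤ |p| * |q| := by
      rw [← abs_mul]
      exact le_abs_self _
    rw [mul_add]
    linarith
  · have := le_abs_self q
    have h12 : 0 ≤ C / 2 * y ^ (19 / 20 : ℝ) := by positivity
    linarith
  · have h13 : y ^ (24 / 25 : ℝ) = y ^ (1 / 100 : ℝ) * y ^ (19 / 20 : ℝ) := by
      rw [← Real.rpow_add (by linarith)]
      norm_num
    rw [h13]
    calc F * (C * y ^ (19 / 20 : ℝ) + 1) ≤ |F| * (C * y ^ (19 / 20 : ℝ) + 1) :=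
          mul_le_mul_of_nonneg_right (le_abs_self F) (by positivity)
      _ ≤ |F| * ((C + 1) * y ^ (19 / 20 : ℝ)) := by
          apply mul_le_mul_of_nonneg_left _ (abs_nonneg _)
          linarith
      _ = |F| * (C + 1) * y ^ (19 / 20 : ℝ) := by ring
      _ ≤ y ^ (1 / 100 : ℝ) * y ^ (19 / 20 : ℝ) := mul_le_mul_of_nonneg_right h7 hyr

/-! ## the ranges -/

/-- a good range among many -/
lemma pick (n : ℕ) (C' δ E : ℝ) (T : ℕ → ℝ) (f : ℕ → ℝ) (lo hi : ℕ → ℕ) (hn : 1 ≤ n)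
    (hδ : 0 ≤ δ) (hT : ∀ k, 0 ≤ T k ∧ T k ≤ 2) (hf : ∀ j, 0 ≤ f j)
    (hlh : ∀ j < n, lo j ≤ hi j) (hord : ∀ j, j + 1 < n → hi j ≤ lo (j + 1))
    (hmono : ∀ k l : ℕ, k ≤ l → l ≤ hi (n - 1) → T l ≤ T k + δ)
    (hhi : ∀ j < n, hi j ≤ hi (n - 1))
    (hsum : ∑ j ∈ range n, f j ≤ C') (hE : C' + 2 ≤ E * n) :
    ∃ j < n, f j ≤ E + 2 * δ ∧ T (lo j) - T (hi j) ≤ E + δ := by
  have htel : ∀ k < n, ∑ j ∈ range (k + 1), (T (lo j) - T (hi j)) ≤
      T (lo 0) - T (hi k) + k * δ := by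
    intro k hk
    induction k with
    | zero => simp
    | succ k ih =>
      rw [sum_range_succ]
      have h1 := ih (by omega)
      have h2 := hmono (hi k) (lo (k + 1)) (hord k hk)
        ((hlh (k + 1) hk).trans (hhi (k + 1) hk))
      push_cast
      linarith
  have hn0 : (0 : ℝ) < n := by exact_mod_cast hn
  have h3 : ∑ j ∈ range n, (f j + (T (lo j) - T (hi j))) ≤ ∑ _j ∈ range n, (E + δ) := by
    rw [sum_add_distrib]
    have h4 := htel (n - 1) (by omega)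
    rw [show n - 1 + 1 = n by omega] at h4
    have h5 : (((n - 1 : ℕ) : ℝ)) ≤ n := by exact_mod_cast Nat.sub_le n 1
    have h6 : ((n - 1 : ℕ) : ℝ) * δ ≤ n * δ := mul_le_mul_of_nonneg_right h5 hδ
    have h7 := (hT (lo 0)).2
    have h8 := (hT (hi (n - 1))).1
    rw [sum_const, card_range, nsmul_eq_mul]
    linarith
  obtain ⟨j, hj, hj2⟩ := exists_le_of_sum_le (nonempty_range_iff.2 (by omega)) h3
  rw [mem_range] at hj
  have h9 := hmono (lo j) (hi j) (hlh j hj) (hhi j hj)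
  have h10 := hf j
  exact ⟨j, hj, by linarith, by linarith⟩

theorem pf_PGN (hKCH : T_KCH) (hLIM : T_LIM) (hBES : EB.T_BES)
    (hCHG : Pool.Agent.H72.GS2.T_CH3) (hMNG : Pool.Agent.H93.GS.T_MNG)
    (hDLG : Pool.Agent.H72.GS2.T_DLG) (hMNX : Pool.Agent.H72.GS2.T_MNX) :
    Pool.Agent.H6.G9.T_PGN := by
  intro th ε C D hth hth1 hε hC hD
  obtain ⟨κ', c₁, δ', CC, p₀, m₁, hκ', hc₁, hδ', hCC, hpm', hchg⟩ := hCHG th hth hth1
  obtain ⟨CM, hCM, hmn⟩ := hMNG th hth hth1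
  obtain ⟨C₁, hC₁, hd⟩ := hDLG th hth hth1
  obtain ⟨C₂, hC₂, hm⟩ := hMNX th hth hth1
  obtain ⟨B₀, C₀, hB₀, hC₀, hbes⟩ := hBES
  obtain ⟨mW, hW⟩ := Pool.Agent.H20.ENM.pf_QMS
  obtain ⟨B, hBB, hB2⟩ : ∃ B : ℕ, B₀ ≤ B ∧ 2 ≤ B := ⟨max B₀ 2, le_max_left _ _, le_max_right _ _⟩
  obtain ⟨ε₃, m₂, hε₃, hlevel⟩ := hm_level (c₁ := c₁) (δ := δ') (p₀ := p₀) (m₁ := m₁) (mW := mW)
    hCC hC₁ hC₂ hchg hd hm (fun m h => (hW m h).2) ε hε
  obtain ⟨C', s₀, X₁, hC', hX₁, hch⟩ := chainU hKCH hLIM hB₀ hC₀ hbes B hBB hB2 (th / 2) δ' c₁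
    hδ' hc₁
  -- the small constants
  obtain ⟨ε₅, hε₅, h51, h52⟩ : ∃ x : ℝ, 0 < x ∧ 8 * x ≤ ε₃ ∧ 8 * x ≤ ε :=
    ⟨min ε₃ ε / 8, by positivity, by
      have := min_le_left ε₃ ε
      linarith, by
      have := min_le_right ε₃ ε
      linarith⟩
  obtain ⟨n, hn1, hn2⟩ : ∃ n : ℕ, 1 ≤ n ∧ C' + 2 ≤ ε₅ * n := by
    refine ⟨⌈(C' + 2) / ε₅⌉₊ + 1, by omega, ?_⟩
    have h1 := Nat.le_ceil ((C' + 2) / ε₅)
    rw [div_le_iff₀ hε₅] at h1
    push_cast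
    linarith
  obtain ⟨L, hL⟩ : ∃ L : ℕ, L = B * D + 4 * D + 4 := ⟨_, rfl⟩
  -- the sizes
  obtain ⟨X₂, hX₂, hlim⟩ := hLIM (min (ε₅ / CM) ε₃) (by positivity)
  obtain ⟨q, hq⟩ : ∃ q : ℝ, q = (m₂ : ℝ) + s₀ + 50 * p₀ + 8000 * B + 2 := ⟨_, rfl⟩
  have hev := (Real.tendsto_log_atTop.comp tendsto_natCast_atTop_atTop).eventually
    (ev_sz (4000 * B * (4000 * B)) q C (2 * D * L ^ n) hC)
  obtain ⟨X₃, hX₃⟩ := eventually_atTop.1 hev
  refine ⟨X₁ + X₂ + X₃, fun X lam hX hlam => ?_⟩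
  have hX3 : 3 ≤ X := by omega
  have hY1 := log_ge hX3
  have hl := Lio_abs hlam
  obtain ⟨hz1, hz2, hz3⟩ := hX₃ X (by omega)
  simp only [Function.comp_apply] at hz1 hz2 hz3
  have hlimX := hlim X
  obtain ⟨Y, hYd⟩ : ∃ Y : ℝ, Y = Real.log X := ⟨_, rfl⟩
  have hteb : ∀ k, 0 ≤ te th lam X k ∧ te th lam X k ≤ 2 := te_bd hth.le hl hX3
  have hch' := hch
  rw [← hYd] at hz1 hz2 hz3 hY1 ⊢
  have hY0 : 0 < Y := by linarith
  set Z : ℝ := C * Y ^ (19 / 20 : ℝ) with hZ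
  have hYr : 0 ≤ Y ^ (24 / 25 : ℝ) := by positivity
  have hZ0 : 0 ≤ Z := by rw [hZ]; positivity
  set a₀ : ℕ := ⌈Z⌉₊ with ha₀
  have ha1 : Z ≤ a₀ := Nat.le_ceil _
  have ha2 : (a₀ : ℝ) < Z + 1 := Nat.ceil_lt_add_one hZ0
  set A : ℕ → ℕ := fun j => L ^ j * a₀ with hA
  have hL4 : 4 ≤ L := by omega
  have hA0 : ∀ j, a₀ ≤ A j := fun j => Nat.le_mul_of_pos_left _ (by positivity)
  have hAs : ∀ j, A (j + 1) = L * A j := fun j => by simp only [hA]; ring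
  have hAm : ∀ i j, i ≤ j → A i ≤ A j := fun i j hij =>
    Nat.mul_le_mul_right _ (Nat.pow_le_pow_right (by omega) hij)
  -- the top
  have htop : ((2 * D * A n : ℕ) : ℝ) ≤ Y ^ (24 / 25 : ℝ) := by
    refine le_trans ?_ hz3
    simp only [hA]
    push_cast
    have h1 : (0 : ℝ) ≤ 2 * D * L ^ n := by positivity
    calc (2 : ℝ) * D * (L ^ n * a₀) = 2 * D * L ^ n * a₀ := by ring
      _ ≤ 2 * D * L ^ n * (Z + 1) := mul_le_mul_of_nonneg_left ha2.le h1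
  have htop' : ∀ l : ℕ, l ≤ 2 * D * A n → (l : ℝ) ≤ 2 * Y ^ (24 / 25 : ℝ) := by
    intro l hl2
    have h1 : (l : ℝ) ≤ ((2 * D * A n : ℕ) : ℝ) := by exact_mod_cast hl2
    linarith
  have hsm : ∀ l : ℕ, l ≤ 2 * D * A n → (l : ℝ) + 1 ≤ min (ε₅ / CM) ε₃ * Y := by
    intro l hl2
    have h1 := hlimX l (by omega) (by rw [← hYd]; exact htop' l hl2)
    rw [← hYd] at h1
    have h2 : 0 ≤ Real.log ((l : ℝ) + 1) := Real.log_nonneg (by
      have : (0 : ℝ) ≤ l := Nat.cast_nonneg _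
      linarith)
    have h3 : (0 : ℝ) ≤ l := Nat.cast_nonneg _
    nlinarith
  have hmono : ∀ k l : ℕ, k ≤ l → l ≤ 2 * D * A n → te th lam X l ≤ te th lam X k + ε₅ := by
    intro k l hkl hl2
    have h1 := te_mono hmn hl hX3 hkl
    rw [← hYd] at h1
    have h2 := hsm l hl2
    have h3 : min (ε₅ / CM) ε₃ * Y ≤ ε₅ / CM * Y :=
      mul_le_mul_of_nonneg_right (min_le_left _ _) hY0.le
    have h4 : CM * ((l : ℝ) + 1) / Y ≤ ε₅ := by
      rw [div_le_iff₀ hY0]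
      calc CM * ((l : ℝ) + 1) ≤ CM * (ε₅ / CM * Y) :=
            mul_le_mul_of_nonneg_left (h2.trans h3) hCM.le
        _ = ε₅ * Y := by field_simp
    linarith
  -- the bottom
  obtain ⟨s, hs⟩ : ∃ s : ℕ, s = 4000 * B * (⌈Real.log Y⌉₊ + s₀) := ⟨_, rfl⟩
  have hlogY0 : 0 ≤ Real.log Y := Real.log_nonneg hY1
  have hsB : s / (4000 * B) = ⌈Real.log Y⌉₊ + s₀ := by
    rw [hs]
    exact Nat.mul_div_cancel_left _ (by omega)
  have hll : Real.log Y ≤ 2 ^ (s / (4000 * B)) := by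
    rw [hsB]
    have h1 : (⌈Real.log Y⌉₊ + s₀ : ℕ) ≤ 2 ^ (⌈Real.log Y⌉₊ + s₀) := Nat.lt_two_pow_self.le
    have h2 : ((⌈Real.log Y⌉₊ + s₀ : ℕ) : ℝ) ≤ 2 ^ (⌈Real.log Y⌉₊ + s₀) := by exact_mod_cast h1
    have h3 : Real.log Y ≤ ⌈Real.log Y⌉₊ := Nat.le_ceil _
    have h4 : ((⌈Real.log Y⌉₊ + s₀ : ℕ) : ℝ) = (⌈Real.log Y⌉₊ : ℝ) + s₀ := by push_cast; rfl
    have h5 : (0 : ℝ) ≤ s₀ := Nat.cast_nonneg _
    linarith
  have hss₀ : s₀ ≤ s := by
    rw [hs]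
    have h1 : ⌈Real.log Y⌉₊ + s₀ ≤ 4000 * B * (⌈Real.log Y⌉₊ + s₀) :=
      Nat.le_mul_of_pos_left _ (by omega)
    omega
  have hbot : 4000 * B * s ≤ a₀ := by
    have h1 : ((4000 * B * s : ℕ) : ℝ) ≤ a₀ := by
      refine le_trans ?_ (hz1.trans ha1)
      rw [hs]
      push_cast
      have h2 : (⌈Real.log Y⌉₊ : ℝ) < Real.log Y + 1 := Nat.ceil_lt_add_one hlogY0
      have h3 : (1 : ℝ) + s₀ ≤ q := by
        rw [hq]
        have a1 : (0 : ℝ) ≤ m₂ := Nat.cast_nonneg _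
        have a2 : (0 : ℝ) ≤ p₀ := Nat.cast_nonneg _
        have a3 : (0 : ℝ) ≤ B := Nat.cast_nonneg _
        linarith
      calc (4000 : ℝ) * B * (4000 * B * (⌈Real.log Y⌉₊ + s₀)) =
          4000 * B * (4000 * B) * (⌈Real.log Y⌉₊ + s₀) := by ring
        _ ≤ 4000 * B * (4000 * B) * (Real.log Y + q) := by
            apply mul_le_mul_of_nonneg_left _ (by positivity)
            linarith
    exact_mod_cast h1
  have ham : m₂ ≤ a₀ ∧ 50 * p₀ ≤ a₀ ∧ 2 ≤ a₀ := by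
    have h1 := hz2.trans ha1
    rw [hq] at h1
    have a1 : (0 : ℝ) ≤ m₂ := Nat.cast_nonneg _
    have a2 : (0 : ℝ) ≤ p₀ := Nat.cast_nonneg _
    have a3 : (0 : ℝ) ≤ B := Nat.cast_nonneg _
    have a4 : (0 : ℝ) ≤ s₀ := Nat.cast_nonneg _
    refine ⟨?_, ?_, ?_⟩
    · have : (m₂ : ℝ) ≤ a₀ := by linarith
      exact_mod_cast this
    · have : ((50 * p₀ : ℕ) : ℝ) ≤ a₀ := by push_cast; linarith
      exact_mod_cast this
    · have : ((2 : ℕ) : ℝ) ≤ a₀ := by push_cast; linarith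
      exact_mod_cast this
  -- the worst levels
  set F : ℕ → ℝ := fun m => bA lam X m + bF lam X m (th / 2) δ' c₁ with hF
  have hF0 : ∀ m, 0 ≤ F m := fun m =>
    add_nonneg (Pool.Agent.H38.EL.pf_BAB lam X m hl).1 (bF_nonneg lam X m (th / 2) δ' c₁)
  have hworst : ∀ j, ∃ w, (A j ≤ w ∧ w ≤ D * A j) ∧ ∀ m, A j ≤ m → m ≤ D * A j → F m ≤ F w := by
    intro j
    obtain ⟨w, hw, hw2⟩ := exists_max_image (Icc (A j) (D * A j)) F
      (nonempty_Icc.2 (Nat.le_mul_of_pos_left _ (by omega)))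
    rw [mem_Icc] at hw
    exact ⟨w, hw, fun m h1 h2 => hw2 m (mem_Icc.2 ⟨h1, h2⟩)⟩
  choose w hw hw2 using hworst
  have hsum : ∑ j ∈ range n, F (w j) ≤ C' * Y := by
    have h1 := hch s X lam hss₀ (by omega) hlam (by rw [← hYd]; exact hll) a₀ (2 * D * A n)
      hbot (by
        have h2 := hA0 n
        have h3 : A n ≤ 2 * D * A n := Nat.le_mul_of_pos_left _ (by omega)
        omega) (by rw [← hYd]; exact htop' _ le_rfl) n w
      ⟨fun i hi => ⟨(hA0 i).trans (hw i).1, by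
        have h2 : A i ≤ A n := hAm i n hi.le
        have h3 : D * A i ≤ D * A n := Nat.mul_le_mul_left _ h2
        have h4 := (hw i).2
        have h5 : 2 * (2 * D * A n) = 4 * (D * A n) := by ring
        rw [h5]
        omega⟩, fun i hi => by
        have h2 : B * w i ≤ B * (D * A i) := Nat.mul_le_mul_left _ (hw i).2
        have h3 : B * (D * A i) ≤ L * A i := by
          rw [← mul_assoc]
          exact Nat.mul_le_mul_right _ (by omega)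
        have h4 := (hw (i + 1)).1
        rw [hAs] at h4
        omega⟩
    rw [← hYd] at h1
    exact h1
  -- the good range
  obtain ⟨j, hj, hg1, hg2⟩ := pick n C' ε₅ ε₅ (te th lam X) (fun j => F (w j) / Y)
    (fun j => A j - A j / 2) (fun j => 2 * D * A j) hn1 hε₅.le hteb
    (fun j => div_nonneg (hF0 _) hY0.le)
    (fun j _ => by
      have h1 : A j ≤ 2 * D * A j := Nat.le_mul_of_pos_left _ (by omega)
      show A j - A j / 2 ≤ 2 * D * A j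
      omega)
    (fun j _ => by
      show 2 * D * A j ≤ A (j + 1) - A (j + 1) / 2
      rw [hAs]
      have h1 : 4 * (D * A j) ≤ L * A j := by
        rw [← mul_assoc]
        exact Nat.mul_le_mul_right _ (by omega)
      have h2 : 2 * D * A j = 2 * (D * A j) := by ring
      rw [h2]
      omega)
    (fun k l hkl hl2 => hmono k l hkl (hl2.trans (Nat.mul_le_mul_left _ (hAm _ _ (Nat.sub_le _ _)))))
    (fun j hj => Nat.mul_le_mul_left _ (hAm _ _ (by omega)))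
    (by
      rw [← sum_div, div_le_iff₀ hY0]
      exact hsum) hn2
  have hAjn : A j ≤ A n := hAm j n hj.le
  have htopj : 2 * D * A j ≤ 2 * D * A n := Nat.mul_le_mul_left _ hAjn
  have hnear : ∀ k l : ℕ, A j - A j / 2 ≤ k → k ≤ l → l ≤ 2 * D * A j →
      te th lam X k - te th lam X l ≤ 4 * ε₅ := by
    intro k l hk hkl hl2
    have h1 := hmono (A j - A j / 2) k hk ((hkl.trans hl2).trans htopj)
    have h2 := hmono l (2 * D * A j) hl2 htopj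
    linarith
  refine ⟨A j, ha1.trans (by exact_mod_cast hA0 j), ?_, ?_, ?_⟩
  · have h1 : ((D * A j : ℕ) : ℝ) ≤ ((2 * D * A n : ℕ) : ℝ) := by
      have : D * A j ≤ 2 * D * A n := by
        have h2 : 2 * D * A j = 2 * (D * A j) := by ring
        omega
      exact_mod_cast this
    have h3 : (D : ℝ) * (A j : ℝ) = ((D * A j : ℕ) : ℝ) := by push_cast; rfl
    rw [h3]
    exact h1.trans htop
  · intro m hm1 hm2
    have hAj2 : 2 ≤ A j := ham.2.2.trans (hA0 j)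
    have hm3 : m ≤ 2 * D * A j := by
      have h2 : 2 * D * A j = 2 * (D * A j) := by ring
      omega
    have hp : 50 * p₀ ≤ m := ham.2.1.trans ((hA0 j).trans hm1)
    apply hlevel X m lam hX3 hlam (ham.1.trans ((hA0 j).trans hm1))
    · have h1 := hnear (m - p₀) m (by omega) (Nat.sub_le _ _) hm3
      linarith
    · have h1 := hnear (m - m / 50) m (by omega) (Nat.sub_le _ _) hm3
      linarith
    · have h1 := hw2 j m hm1 hm2
      rw [div_le_iff₀ hY0] at hg1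
      rw [← hYd]
      have h2 : F m ≤ (ε₅ + 2 * ε₅) * Y := h1.trans hg1
      have h3 : (ε₅ + 2 * ε₅) * Y ≤ ε₃ * Y := mul_le_mul_of_nonneg_right (by linarith) hY0.le
      exact h2.trans h3
    · have h1 := hsm m (hm3.trans htopj)
      rw [← hYd]
      exact h1.trans (mul_le_mul_of_nonneg_right (min_le_right _ _) hY0.le)
  · intro k l hk hkl hl2
    have h1 := hnear k l (by omega) hkl hl2
    linarith

end Pool.Agent.H93.G9
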